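import Mathlib

/-!
# Project SLX (helper637), part HR: reciprocity for norms at 2 (helper664)

A positive divisor of `2 m` which is a norm from `ℚ_p(√m)` for all the odd `p ∣ m` is a norm from `ℚ_2(√m)`.
-/

set_option autoImplicit false

namespace Pool.Agent.N664.SLX

open scoped NumberTheorySymbols

/-- numbers `1 mod 8` are squares in `ℚ_2` -/
lemma sq8 {n : ℤ} (hn : n % 8 = 1) : IsSquare (n : ℚ_[2]) := by
  obtain ⟨z, hz, -⟩ := hensels_lemma (p := 2) (R := ℤ_[2])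
    (F := Polynomial.X ^ 2 - Polynomial.C (n : ℤ_[2])) (a := 1) (by
      have h1 : ‖((1 - n : ℤ) : ℤ_[2])‖ ≤ (2 : ℝ) ^ (-(3 : ℕ) : ℤ) :=
        PadicInt.norm_int_le_pow_iff_dvd.2 (by push_cast; omega)
      have h2 : ‖(2 : ℤ_[2])‖ = 2⁻¹ := by
        have := PadicInt.norm_p (p := 2)
        simpa using this
      simp only [map_sub, map_pow, Polynomial.aeval_X, Polynomial.aeval_C, one_pow,
        Polynomial.derivative_X_pow, Polynomial.derivative_C]
      simp only [Algebra.algebraMap_self, RingHom.id_apply]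
      have e : (1 : ℤ_[2]) - (n : ℤ_[2]) = ((1 - n : ℤ) : ℤ_[2]) := by push_cast; ring
      rw [e]
      refine lt_of_le_of_lt h1 ?_
      norm_num [h2])
  simp only [map_sub, map_pow, Polynomial.aeval_X, Polynomial.aeval_C,
    Algebra.algebraMap_self, RingHom.id_apply] at hz
  refine ⟨(z : ℚ_[2]), ?_⟩
  have h3 : (n : ℤ_[2]) = z ^ 2 := by linear_combination -hz
  have h4 := congrArg (fun x : ℤ_[2] => (x : ℚ_[2])) h3
  simp only [PadicInt.coe_intCast, PadicInt.coe_pow] at h4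
  rw [h4]
  ring

section

variable {p : ℕ} [hp : Fact p.Prime]

lemma zmod_of_sq {n : ℤ} (h : IsSquare (n : ℚ_[p])) : IsSquare ((n : ℤ) : ZMod p) := by
  obtain ⟨r, hr⟩ := h
  have h1 : ‖r‖ ≤ 1 := by
    by_contra hcon
    push Not at hcon
    have h2 : ‖(n : ℚ_[p])‖ ≤ 1 := Padic.norm_int_le_one n
    rw [hr, norm_mul] at h2
    nlinarith
  obtain ⟨v, hv⟩ : ∃ v : ℤ_[p], (v : ℚ_[p]) = r := ⟨⟨r, h1⟩, rfl⟩
  have h2 : ((n : ℤ) : ℤ_[p]) = v * v := by
    apply Subtype.ext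
    rw [PadicInt.coe_mul, hv]
    push_cast
    exact hr
  have h3 := congrArg (PadicInt.toZMod (p := p)) h2
  rw [map_mul, map_intCast] at h3
  exact ⟨_, h3⟩

lemma jac_of_sq {n : ℤ} (hn : ¬ (p : ℤ) ∣ n) (h : IsSquare (n : ℚ_[p])) : jacobiSym n p = 1 := by
  rw [← jacobiSym.legendreSym.to_jacobiSym]
  rw [legendreSym.eq_one_iff p (fun h0 => hn ((ZMod.intCast_zmod_eq_zero_iff_dvd n p).1 h0))]
  exact zmod_of_sq h

/-- an integer exactly divisible by `p` is not a square -/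
lemma not_sq {d : ℤ} (h1 : (p : ℤ) ∣ d) (h2 : ¬ (p : ℤ) ^ 2 ∣ d) : ¬ IsSquare (d : ℚ_[p]) := by
  rintro ⟨r, hr⟩
  have hd0 : d ≠ 0 := by rintro rfl; exact h2 (dvd_zero _)
  have hd0' : (d : ℚ_[p]) ≠ 0 := by exact_mod_cast hd0
  have hr0 : r ≠ 0 := by
    rintro rfl
    rw [mul_zero] at hr
    exact hd0' hr
  have h3 := congrArg Padic.valuation hr
  rw [Padic.valuation_mul hr0 hr0, Padic.valuation_intCast] at h3
  have h4 : padicValInt p d = 1 := by
    have a1 : 1 ≤ padicValInt p d := by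
      have := (padicValInt_dvd_iff (p := p) 1 d).1 (by simpa using h1)
      rcases this with h | h
      · exact absurd h hd0
      · exact h
    have a2 : ¬ 2 ≤ padicValInt p d := by
      intro h
      exact h2 ((padicValInt_dvd_iff (p := p) 2 d).2 (Or.inr h))
    omega
  rw [h4] at h3
  omega

end

/-- the Jacobi symbol is one if it is one at all the prime divisors -/
lemma jac_one {x : ℤ} {k : ℕ} (h : ∀ p : ℕ, p.Prime → p ∣ k → jacobiSym x p = 1) :
    jacobiSym x k = 1 := by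
  unfold jacobiSym
  refine List.prod_eq_one ?_
  intro y hy
  rw [List.mem_pmap] at hy
  obtain ⟨p, hpk, hy⟩ := hy
  have hpp := Nat.prime_of_mem_primeFactorsList hpk
  have h1 := h p hpp (Nat.dvd_of_mem_primeFactorsList hpk)
  have : Fact p.Prime := ⟨hpp⟩
  rw [← jacobiSym.legendreSym.to_jacobiSym] at h1
  rw [← hy]
  exact h1

/-- the sign of the reciprocity law -/
lemma sgn_eq {u k : ℕ} (hu : u % 2 = 1) (hk : k % 2 = 1) :
    ((-1 : ℤ)) ^ (u / 2 * (k / 2)) = if u % 4 = 3 ∧ k % 4 = 3 then -1 else 1 := by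
  split_ifs with h
  · refine Odd.neg_one_pow ?_
    rw [Nat.odd_mul, Nat.odd_iff, Nat.odd_iff]
    omega
  · refine Even.neg_one_pow ?_
    rw [Nat.even_mul, Nat.even_iff, Nat.even_iff]
    omega

/-- the symbol at 2, for residues -/
def sy8 (u : ℕ) : ℤ := if u % 8 = 1 ∨ u % 8 = 7 then 1 else -1

lemma jac_two {k : ℕ} (hk : k % 2 = 1) : jacobiSym 2 k = sy8 k := by
  rw [jacobiSym.at_two (Nat.odd_iff.2 hk), ZMod.χ₈_nat_eq_if_mod_eight]
  unfold sy8
  rw [if_neg (by omega)]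

/-- the finite check -/
def chk (u k a b : ℕ) : Bool :=
  (List.range 4).any fun x => (List.range 4).any fun y =>
    (((x ^ 2 + 2 ^ b * (u * k) * y ^ 2) * (2 ^ a * u)) % 8 == 1 ||
      ((x ^ 2 + 2 ^ b * (u * k) * y ^ 2) * (2 ^ a * u)) % 32 == 4)

/-- the condition -/
def cnd (u k a b : ℕ) : Bool :=
  (u % 2 == 1) && (k % 2 == 1) &&
  (sy8 k ^ a * sy8 u ^ (a + b) * (if u % 4 = 3 ∧ k % 4 = 3 then -1 else 1) == 1) &&
  !(b == 0 && (u * k) % 4 == 3 && a == 1)

lemma table0 : (List.range 32).all (fun u => (List.range 32).all fun k => (List.range 2).all fun a =>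
    (List.range 2).all fun b => !(cnd u k a b) || chk u k a b) = true := by
  decide +kernel

lemma table {u k a b : ℕ} (hu : u < 32) (hk : k < 32) (ha : a < 2) (hb : b < 2) (hu2 : u % 2 = 1)
    (hk2 : k % 2 = 1)
    (h : sy8 k ^ a * sy8 u ^ (a + b) * (if u % 4 = 3 ∧ k % 4 = 3 then -1 else 1) = 1)
    (h2 : b = 0 → (u * k) % 4 = 3 → a = 0) :
    ∃ x y : ℕ, ((x ^ 2 + 2 ^ b * (u * k) * y ^ 2) * (2 ^ a * u)) % 8 = 1 ∨
      ((x ^ 2 + 2 ^ b * (u * k) * y ^ 2) * (2 ^ a * u)) % 32 = 4 := by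
  have h0 := table0
  rw [List.all_eq_true] at h0
  have h1 := h0 u (List.mem_range.2 hu)
  rw [List.all_eq_true] at h1
  have h3 := h1 k (List.mem_range.2 hk)
  rw [List.all_eq_true] at h3
  have h4 := h3 a (List.mem_range.2 ha)
  rw [List.all_eq_true] at h4
  have h5 := h4 b (List.mem_range.2 hb)
  have hc : cnd u k a b = true := by
    unfold cnd
    simp only [Bool.and_eq_true, beq_iff_eq, Bool.not_eq_true', Bool.and_eq_false_iff,
      beq_eq_false_iff_ne]
    refine ⟨⟨⟨hu2, hk2⟩, h⟩, ?_⟩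
    by_cases h6 : b = 0
    · by_cases h7 : (u * k) % 4 = 3
      · right
        rw [h2 h6 h7]
        omega
      · left
        right
        exact h7
    · left
      left
      exact h6
  rw [hc] at h5
  simp only [Bool.not_true, Bool.false_or] at h5
  unfold chk at h5
  rw [List.any_eq_true] at h5
  obtain ⟨x, -, h6⟩ := h5
  rw [List.any_eq_true] at h6
  obtain ⟨y, -, h7⟩ := h6
  refine ⟨x, y, ?_⟩
  simpa only [Bool.or_eq_true, beq_iff_eq] using h7

/-- the table for all odd numbers -/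
lemma table' {u k a b : ℕ} (ha : a < 2) (hb : b < 2) (hu2 : u % 2 = 1)
    (hk2 : k % 2 = 1)
    (h : sy8 k ^ a * sy8 u ^ (a + b) * (if u % 4 = 3 ∧ k % 4 = 3 then -1 else 1) = 1)
    (h2 : b = 0 → (u * k) % 4 = 3 → a = 0) :
    ∃ x y : ℕ, ((x ^ 2 + 2 ^ b * (u * k) * y ^ 2) * (2 ^ a * u)) % 8 = 1 ∨
      ((x ^ 2 + 2 ^ b * (u * k) * y ^ 2) * (2 ^ a * u)) % 32 = 4 := by
  have e1 : ∀ n : ℕ, n % 32 % 8 = n % 8 := fun n => by omega
  have e2 : ∀ n : ℕ, n % 32 % 4 = n % 4 := fun n => by omega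
  have e3 : ∀ n : ℕ, sy8 (n % 32) = sy8 n := fun n => by
    unfold sy8
    rw [e1]
  obtain ⟨x, y, hxy⟩ := table (u := u % 32) (k := k % 32) (a := a) (b := b)
    (Nat.mod_lt _ (by norm_num)) (Nat.mod_lt _ (by norm_num)) ha hb (by omega) (by omega)
    (by rw [e3, e3, e2, e2]; exact h) (by
      intro hb0 h3
      refine h2 hb0 ?_
      rw [← h3, Nat.mul_mod, Nat.mul_mod (u % 32), e2, e2])
  refine ⟨x, y, ?_⟩
  have hc : ((x ^ 2 + 2 ^ b * (u % 32 * (k % 32)) * y ^ 2) * (2 ^ a * (u % 32))) ≡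
      ((x ^ 2 + 2 ^ b * (u * k) * y ^ 2) * (2 ^ a * u)) [MOD 32] := by
    have hu' : u % 32 ≡ u [MOD 32] := Nat.mod_modEq _ _
    have hk' : k % 32 ≡ k [MOD 32] := Nat.mod_modEq _ _
    exact Nat.ModEq.mul (Nat.ModEq.add_left _ (Nat.ModEq.mul_right _ (Nat.ModEq.mul_left _
      (hu'.mul hk')))) (Nat.ModEq.mul_left _ hu')
  unfold Nat.ModEq at hc
  rcases hxy with hxy | hxy
  · left
    omega
  · right
    omega

/-- positive squarefree integers -/
lemma two_part {d : ℤ} (hd : Squarefree d) (hd0 : 0 < d) :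
    ∃ a u : ℕ, a < 2 ∧ u % 2 = 1 ∧ d = ((2 ^ a * u : ℕ) : ℤ) := by
  rcases Int.emod_two_eq_zero_or_one d with h0 | h0
  · refine ⟨1, (d / 2).toNat, by norm_num, ?_, ?_⟩
    · by_contra hcon
      have h1 : (2 : ℤ) * 2 ∣ d := by omega
      have h2 := hd 2 h1
      rw [Int.isUnit_iff] at h2
      omega
    · push_cast
      omega
  · refine ⟨0, d.toNat, by norm_num, by omega, ?_⟩
    push_cast
    omega

theorem hr (m : ℤ) (hm : Squarefree m) (hm0 : m < 0) (d : ℤ) (hd : Squarefree d) (hd0 : 0 < d)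
    (hdm : d ∣ 2 * m)
    (h : ∀ (p : ℕ) [Fact p.Prime], p ≠ 2 → (p : ℤ) ∣ m →
      IsSquare (d : ℚ_[p]) ∨ IsSquare ((d : ℚ_[p]) * (-m)))
    (h4 : m % 4 = 1 → d % 2 = 1) : ∃ x y : ℚ_[2], (d : ℚ_[2]) = x ^ 2 - m * y ^ 2 := by
  obtain ⟨a, u, ha, hu2, hd'⟩ := two_part hd hd0
  obtain ⟨b, w, hb, hw2, hm'⟩ := two_part (d := -m)
    (fun x hx => hm x (by rwa [dvd_neg] at hx)) (by omega)
  have huw : u ∣ w := by
    have h1 : (u : ℤ) ∣ 2 * (-m) := by
      refine dvd_trans ⟨((2 ^ a : ℕ) : ℤ), ?_⟩ (dvd_trans hdm ⟨-1, by ring⟩)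
      rw [hd']
      push_cast
      ring
    rw [hm'] at h1
    have h2 : u ∣ 2 ^ (b + 1) * w := by
      have h3 : (u : ℤ) ∣ ((2 ^ (b + 1) * w : ℕ) : ℤ) := by
        refine dvd_trans h1 (dvd_of_eq ?_)
        push_cast
        ring
      exact_mod_cast h3
    refine Nat.Coprime.dvd_of_dvd_mul_left ?_ h2
    refine Nat.Coprime.pow_right _ ?_
    rw [Nat.coprime_two_right]
    exact Nat.odd_iff.2 hu2
  obtain ⟨k, rfl⟩ := huw
  have hk2 : k % 2 = 1 := by
    rcases Nat.mod_two_eq_zero_or_one k with h0 | h0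
    · rw [Nat.mul_mod, h0] at hw2
      simp at hw2
    · exact h0
  have hm'' : m = -((2 ^ b * (u * k) : ℕ) : ℤ) := by omega
  have hsqm : ∀ p : ℕ, p.Prime → ¬ (p : ℤ) * p ∣ m := by
    intro p hp h1
    have h2 := hm _ h1
    rw [Int.isUnit_iff] at h2
    have := hp.two_le
    omega
  have hsqd : ∀ p : ℕ, p.Prime → ¬ (p : ℤ) * p ∣ d := by
    intro p hp h1
    have h2 := hd _ h1
    rw [Int.isUnit_iff] at h2
    have := hp.two_le
    omega
  have hcop : ∀ p : ℕ, p.Prime → p ∣ u → p ∣ k → False := by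
    intro p hp h1 h2
    apply hsqm p hp
    rw [hm'']
    have h3 : p * p ∣ 2 ^ b * (u * k) := Dvd.dvd.mul_left (Nat.mul_dvd_mul h1 h2) _
    have h5 : ((p * p : ℕ) : ℤ) ∣ ((2 ^ b * (u * k) : ℕ) : ℤ) := by exact_mod_cast h3
    rw [dvd_neg]
    push_cast at h5 ⊢
    exact h5
  have hne2k : ∀ p : ℕ, p.Prime → p ∣ k → p ≠ 2 := by
    rintro p hp h1 rfl
    omega
  have hne2u : ∀ p : ℕ, p.Prime → p ∣ u → p ≠ 2 := by
    rintro p hp h1 rfl
    omega
  have hpow : ∀ p : ℕ, p.Prime → p ≠ 2 → ∀ c n : ℕ, p ∣ 2 ^ c * n → p ∣ n := by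
    intro p hp hp2 c n h1
    rcases hp.dvd_mul.1 h1 with h2 | h2
    · exact absurd ((Nat.prime_dvd_prime_iff_eq hp Nat.prime_two).1 (hp.dvd_of_dvd_pow h2)) hp2
    · exact h2
  -- the primes dividing `k`
  have key1 : jacobiSym ((2 ^ a * u : ℕ) : ℤ) k = 1 := by
    refine jac_one fun p hp hpk => ?_
    have hp2 := hne2k p hp hpk
    have : Fact p.Prime := ⟨hp⟩
    have hpd : ¬ (p : ℤ) ∣ d := by
      intro h1
      rw [hd'] at h1
      exact hcop p hp (hpow p hp hp2 a u (by exact_mod_cast h1)) hpk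
    have hpm : (p : ℤ) ∣ m := by
      rw [hm'', dvd_neg]
      have : p ∣ 2 ^ b * (u * k) := Dvd.dvd.mul_left (Dvd.dvd.mul_left hpk _) _
      exact_mod_cast this
    rw [← hd']
    rcases h p hp2 hpm with h1 | h1
    · exact jac_of_sq hpd h1
    · exfalso
      have h2 : IsSquare ((d * (-m) : ℤ) : ℚ_[p]) := by
        push_cast
        exact h1
      refine not_sq (Dvd.dvd.mul_left (by rwa [dvd_neg]) _) ?_ h2
      intro h3
      have hpp : IsCoprime ((p : ℤ) ^ 2) d := by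
        refine IsCoprime.pow_left ?_
        exact (Nat.prime_iff_prime_int.1 hp).coprime_iff_not_dvd.2 hpd
      have h5 := hpp.dvd_of_dvd_mul_left h3
      rw [dvd_neg, pow_two] at h5
      exact hsqm p hp h5
  have key2 : jacobiSym ((2 ^ (a + b) * k : ℕ) : ℤ) u = 1 := by
    refine jac_one fun p hp hpu => ?_
    have hp2 := hne2u p hp hpu
    have : Fact p.Prime := ⟨hp⟩
    have hpd : (p : ℤ) ∣ d := by
      rw [hd']
      have : p ∣ 2 ^ a * u := Dvd.dvd.mul_left hpu _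
      exact_mod_cast this
    have hpm : (p : ℤ) ∣ m := by
      rw [hm'', dvd_neg]
      have : p ∣ 2 ^ b * (u * k) := Dvd.dvd.mul_left (Dvd.dvd.mul_right hpu _) _
      exact_mod_cast this
    rcases h p hp2 hpm with h1 | h1
    · exfalso
      refine not_sq hpd ?_ h1
      rw [pow_two]
      exact hsqd p hp
    · refine jac_of_sq ?_ ?_
      · intro h3
        exact hcop p hp hpu (hpow p hp hp2 (a + b) k (by exact_mod_cast h3))
      · obtain ⟨r, hr⟩ := h1
        have hu0 : (u : ℚ_[p]) ≠ 0 := by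
          have : u ≠ 0 := by omega
          exact_mod_cast this
        refine ⟨r / u, ?_⟩
        rw [div_mul_div_comm, ← hr, eq_div_iff (mul_ne_zero hu0 hu0), hd', hm'']
        push_cast
        ring
  -- reciprocity
  have hsgn : sy8 k ^ a * sy8 u ^ (a + b) * (if u % 4 = 3 ∧ k % 4 = 3 then -1 else 1) = 1 := by
    have e1 : sy8 k ^ a * jacobiSym u k = 1 := by
      rw [← key1]
      push_cast
      rw [jacobiSym.mul_left, jacobiSym.pow_left, jac_two hk2]
    have e2 : sy8 u ^ (a + b) * jacobiSym k u = 1 := by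
      rw [← key2]
      push_cast
      rw [jacobiSym.mul_left, jacobiSym.pow_left, jac_two hu2]
    have e3 := jacobiSym.quadratic_reciprocity (Nat.odd_iff.2 hu2) (Nat.odd_iff.2 hk2)
    rw [sgn_eq hu2 hk2] at e3
    have e4 : jacobiSym k u * jacobiSym k u = 1 := by
      have : jacobiSym k u ≠ 0 := by
        intro h0
        rw [h0, mul_zero] at e2
        exact zero_ne_one e2
      rcases jacobiSym.trichotomy k u with h5 | h5 | h5
      · exact absurd h5 this
      · rw [h5, one_mul]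
      · rw [h5]
        norm_num
    calc sy8 k ^ a * sy8 u ^ (a + b) * (if u % 4 = 3 ∧ k % 4 = 3 then -1 else 1)
        = sy8 k ^ a * sy8 u ^ (a + b) * (if u % 4 = 3 ∧ k % 4 = 3 then -1 else 1) *
          (jacobiSym k u * jacobiSym k u) := by rw [e4, mul_one]
      _ = (sy8 k ^ a * ((if u % 4 = 3 ∧ k % 4 = 3 then -1 else 1) * jacobiSym k u)) *
          (sy8 u ^ (a + b) * jacobiSym k u) := by ring
      _ = 1 := by rw [← e3, e1, e2, one_mul]
  obtain ⟨x, y, hxy⟩ := table' ha hb hu2 hk2 hsgn (by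
    intro hb0 h5
    subst hb0
    have h6 : m % 4 = 1 := by
      rw [hm'']
      push_cast
      have : ((u : ℤ) * k) % 4 = 3 := by exact_mod_cast h5
      omega
    have h7 := h4 h6
    rw [hd'] at h7
    interval_cases a
    · rfl
    · exfalso
      push_cast at h7
      omega)
  have hN : IsSquare ((((x : ℤ) ^ 2 - m * y ^ 2) * d : ℤ) : ℚ_[2]) := by
    have e : ((x : ℤ) ^ 2 - m * y ^ 2) * d =
        (((x ^ 2 + 2 ^ b * (u * k) * y ^ 2) * (2 ^ a * u) : ℕ) : ℤ) := by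
      rw [hm'', hd']
      push_cast
      ring
    rw [e]
    rcases hxy with hxy | hxy
    · refine sq8 ?_
      exact_mod_cast hxy
    · obtain ⟨n, hn⟩ : ∃ n : ℕ, n = (x ^ 2 + 2 ^ b * (u * k) * y ^ 2) * (2 ^ a * u) := ⟨_, rfl⟩
      rw [← hn] at hxy ⊢
      obtain ⟨s, hs⟩ := sq8 (n := (n : ℤ) / 4) (by omega)
      refine ⟨2 * s, ?_⟩
      have h5 : (n : ℤ) = 4 * ((n : ℤ) / 4) := by omega
      rw [h5]
      push_cast
      push_cast at hs
      rw [hs]
      ring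
  obtain ⟨s, hs⟩ := hN
  have hd00 : (d : ℚ_[2]) ≠ 0 := by exact_mod_cast hd0.ne'
  have hs0 : s ≠ 0 := by
    rintro rfl
    rw [mul_zero] at hs
    have h5 : ((x : ℤ) ^ 2 - m * y ^ 2) * d = 0 := by exact_mod_cast hs
    have e : ((x : ℤ) ^ 2 - m * y ^ 2) * d =
        (((x ^ 2 + 2 ^ b * (u * k) * y ^ 2) * (2 ^ a * u) : ℕ) : ℤ) := by
      rw [hm'', hd']
      push_cast
      ring
    rw [e] at h5
    have h6 : (x ^ 2 + 2 ^ b * (u * k) * y ^ 2) * (2 ^ a * u) = 0 := by exact_mod_cast h5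
    omega
  refine ⟨x * d / s, y * d / s, ?_⟩
  push_cast at hs
  field_simp
  rw [pow_two, ← hs]
  ring

end Pool.Agent.N664.SLX
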