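import Pool.Agent.N637.SLX.Stm2
import Pool.Agent.N664.SLX.HR0

/-!
# Project SLX (helper637), part HR (helper664)
-/

set_option autoImplicit false

namespace Pool.Agent.N664.SLX

theorem t_HR : Pool.Agent.N637.SLX.S_HR :=
  fun m hm hm0 d hd hd0 hdm h h4 => hr m hm hm0 d hd hd0 hdm h h4

end Pool.Agent.N664.SLX
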